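import Pool.Agent.Y996.QH.Stm

/-!
Project QH: upper bound of the crossing probability of the half-plane.
-/

set_option autoImplicit false

namespace Pool.Agent.Y448.QH

open MeasureTheory H974 Finset
open Pool.Agent.Y996.RD
open Pool.Agent.Y996.QH

/-- the edges of the half-plane in the box of radius `n` around `x` -/
noncomputable def hb (x : Vtx) (n : ℕ) : Finset Edg :=
  RE (x.1 - n) (x.1 + n) (max 0 (x.2 - n)) (x.2 + n)

theorem hb_sub_bx (x : Vtx) (n : ℕ) : hb x n ⊆ bx x n := by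
  unfold hb bx
  apply RE_subset <;> omega

theorem sh_hb (x : Vtx) (n : ℕ) : sh (x.1 - n, 0) (hb x n) = TH976.qb ((n : ℤ), x.2) n := by
  unfold sh hb TH976.qb
  rw [trl_RE]
  congr 1
  · simp only; omega
  · simp only; omega
  · simp only; omega
  · simp only; omega

/-- the crossing event seen from `x` -/
def EV (x : Vtx) (m n : ℕ) (F : Finset Edg) : Prop :=
  TH976.Cx ((n : ℤ), x.2) m n (sh (x.1 - n, 0) F ∩ TH976.qb ((n : ℤ), x.2) n)

theorem EV_local (x : Vtx) (m n : ℕ) (F : Finset Edg) : EV x m n F ↔ EV x m n (F ∩ hb x n) := by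
  unfold EV
  have e : sh (x.1 - n, 0) (F ∩ hb x n) =
      sh (x.1 - n, 0) F ∩ TH976.qb ((n : ℤ), x.2) n := by
    rw [← sh_hb]
    unfold sh
    rw [LSym.mp_inter]
  rw [e, Finset.inter_assoc, Finset.inter_self]

theorem pr_EV {x : Vtx} {m n : ℕ} {S : Finset Edg} (hS : hb x n ⊆ S) :
    Pr (fun _ => (1/2:ℝ)) S (EV x m n) =
      Pr (fun _ => (1/2:ℝ)) (TH976.qb ((n : ℤ), x.2) n) (TH976.Cx ((n : ℤ), x.2) m n) := by
  have hsub : TH976.qb ((n : ℤ), x.2) n ⊆ sh (x.1 - n, 0) S := by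
    have := sh_mono (x := (x.1 - (n:ℤ), (0:ℤ))) hS
    rw [sh_hb] at this
    exact this
  have h1 : Pr (fun _ => (1/2:ℝ)) S (EV x m n) = Pr (fun _ => (1/2:ℝ)) (sh (x.1 - n, 0) S)
      (fun F => TH976.Cx ((n : ℤ), x.2) m n (F ∩ TH976.qb ((n : ℤ), x.2) n)) := by
    unfold sh
    rw [LSym.pr]
    rfl
  rw [h1, Pr_local hsub (fun F _ => by rw [Finset.inter_assoc, Finset.inter_self])]
  apply Pr_congr
  intro F hF
  rw [Finset.inter_eq_left.mpr hF]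

theorem nv_im_nonneg {ε : ℝ} (hε : 0 < ε) {z : ℂ} (hz : 0 ≤ z.im) : 0 ≤ (nv ε z).2 := by
  have h := (abs_le.mp (nv_abs hε z).2).1
  by_contra hcon
  push Not at hcon
  have h1 : (nv ε z).2 ≤ -1 := by omega
  have h2 : ((nv ε z).2 : ℝ) ≤ -1 := by exact_mod_cast h1
  nlinarith

/-- an open path of the half-plane from near `K` to near `L` crosses an annulus around `K` -/
theorem upH_event {ε : ℝ} (hε : 0 < ε) {K L : Set ℂ} {z : ℂ} {d ρ : ℝ}
    (hK : K ⊆ Metric.closedBall z ρ) (hερ : ε ≤ ρ) (hρd : 64 * ρ < d)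
    (hL : ∀ w ∈ L, d ≤ dist z w) {S : Finset Edg}
    (hS : hb (nv ε z) ⌊d / (4 * ε)⌋₊ ⊆ S) {G : Set Edg} (hG : ∀ e ∈ G, 0 ≤ e.2.1) {u v : Vtx}
    (hu : u ∈ nearH ε K) (hv : v ∈ nearH ε L) (h : Reach G u v) {F : Finset Edg}
    (hF : G ∩ ↑S ⊆ ↑F) :
    EV (nv ε z) (⌈ρ / ε⌉₊ + 2) ⌊d / (4 * ε)⌋₊ F := by
  obtain ⟨m, hm⟩ : ∃ m, m = ⌈ρ / ε⌉₊ + 2 := ⟨_, rfl⟩
  obtain ⟨n, hn⟩ : ∃ n, n = ⌊d / (4 * ε)⌋₊ := ⟨_, rfl⟩
  rw [← hm, ← hn]
  rw [← hn] at hS
  have hρ : 0 < ρ := hε.trans_le hερ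
  have hm1 : ρ + 2 * ε ≤ ε * m := by
    have : ρ / ε + 2 ≤ m := by rw [hm]; push_cast; linarith [Nat.le_ceil (ρ / ε)]
    calc ρ + 2 * ε = ε * (ρ / ε + 2) := by field_simp
      _ ≤ _ := mul_le_mul_of_nonneg_left this hε.le
  have hm2 : ε * m ≤ ρ + 3 * ε := by
    have : (m:ℝ) ≤ ρ / ε + 3 := by
      rw [hm]; push_cast; linarith [(Nat.ceil_lt_add_one (show 0 ≤ ρ / ε by positivity)).le]
    calc ε * m ≤ ε * (ρ / ε + 3) := mul_le_mul_of_nonneg_left this hε.le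
      _ = _ := by field_simp
  have hn1 : ε * n ≤ d / 4 := by
    have : (n:ℝ) ≤ d / (4 * ε) := by
      rw [hn]; exact Nat.floor_le (div_nonneg (by linarith) (by linarith))
    calc ε * n ≤ ε * (d / (4 * ε)) := mul_le_mul_of_nonneg_left this hε.le
      _ = _ := by field_simp
  have hn2 : d / 4 - ε ≤ ε * n := by
    have : d / (4 * ε) - 1 ≤ n := by rw [hn]; linarith [Nat.lt_floor_add_one (d / (4 * ε))]
    calc d / 4 - ε = ε * (d / (4 * ε) - 1) := by field_simp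
      _ ≤ _ := mul_le_mul_of_nonneg_left this hε.le
  have hmn : m ≤ n := by
    have : ε * (m:ℝ) ≤ ε * n := by linarith
    exact_mod_cast le_of_mul_le_mul_left this hε
  obtain ⟨hu0, a, ha, hua⟩ := hu
  obtain ⟨hv0, b, hb', hvb⟩ := hv
  have hza : dist z a ≤ ρ := by rw [dist_comm]; exact hK ha
  have h1 := lat_close hε hza (nv_abs hε z) (near_coord hua) (n := m) (by linarith)
  have h2 := lat_far hε (by linarith) (hL b hb') (nv_abs hε z) (near_coord hvb) (n := n)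
    (by linarith)
  obtain ⟨y, hy⟩ : ∃ y : Vtx, y = ((nv ε z).1 - (n:ℤ), (0:ℤ)) := ⟨_, rfl⟩
  have hy1 : y.1 = (nv ε z).1 - (n:ℤ) := by rw [hy]
  have hy2 : y.2 = 0 := by rw [hy]
  have hr := (reach_shS (x := y)).mpr h
  have h3 := abs_le.mp h1.1
  have h4 := abs_le.mp h1.2
  have hmn' : (m:ℤ) ≤ n := by exact_mod_cast hmn
  obtain ⟨t, k1, k2, k3⟩ := first_exit (a := 0) (b := 2 * (n:ℤ)) (c := (nv ε z).2 - n)
    (d := (nv ε z).2 + n)
    (by unfold inR; simp only [hy1, hy2]; omega) hr (by simp only [hy1, hy2]; omega)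
  unfold EV
  rw [← hy]
  refine ⟨_, t, ?_, ?_, ?_, k3.mono ?_⟩
  · unfold TH976.InV
    simp only [hy1, hy2]
    omega
  · unfold TH976.sd
    simp only [hy1, hy2]
    omega
  · unfold TH976.sd
    simp only
    omega
  · rintro e ⟨he1, he2⟩
    have h5 : e ∈ TH976.qb ((n : ℤ), (nv ε z).2) n := by
      obtain ⟨e', he', rfl⟩ := he1
      have h6 := hG e' he'
      obtain ⟨p, q, c⟩ := e'
      have h7 : ((trl (-y.1) (-y.2)).φ (p, q, c)) = (p + -y.1, q + -y.2, c) := rfl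
      rw [h7] at he2 ⊢
      rw [hy2] at he2 ⊢
      simp only at h6
      unfold TH976.qb
      cases c
      · rw [Finset.mem_coe, mem_RE_false] at he2
        rw [mem_RE_false]
        simp only
        omega
      · rw [Finset.mem_coe, mem_RE_true] at he2
        rw [mem_RE_true]
        simp only
        omega
    rw [Finset.coe_inter]
    refine ⟨?_, h5⟩
    have h6 : e ∈ (↑(sh y S) : Set Edg) := by
      have := sh_mono (x := y) hS
      rw [hy, sh_hb] at this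
      rw [hy]
      exact this h5
    have h8 : e ∈ shS y (G ∩ ↑S) := by
      rw [shS_inter]; exact ⟨he1, h6⟩
    rw [coe_sh]
    exact Set.image_mono hF h8

/-- the probability bound used in the upper estimate -/
theorem EV_up {C : ℝ} (hC : 0 < C) (h : ∀ (x : Vtx) (m n : ℕ), TH976.InV x → 1 ≤ n → m ≤ n →
      (n : ℤ) ≤ x.1 → (x.2 ≤ 64 * ((m : ℤ) + 1) ∨ (n : ℤ) ≤ 1000 * ((m : ℤ) + 1)) →
      Pr (fun _ => (1/2 : ℝ)) (TH976.qb x n) (TH976.Cx x m n) ≤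
        C * (((m : ℝ) + 1) / n) ^ ((1 : ℝ) / 3)) {ε d ρ : ℝ} (hε : 0 < ε)
    (hερ : ε ≤ ρ) (hρd : 64 * ρ < d) {z : ℂ} (hz : 0 ≤ z.im) (hz2 : z.im ≤ ρ) {S : Finset Edg}
    (hS : hb (nv ε z) ⌊d / (4 * ε)⌋₊ ⊆ S) :
    Pr (fun _ => (1/2:ℝ)) S (EV (nv ε z) (⌈ρ / ε⌉₊ + 2) ⌊d / (4 * ε)⌋₊) ≤
      C * (40:ℝ) ^ ((1:ℝ)/3) * (ρ / d) ^ ((1:ℝ)/3) := by
  rw [pr_EV hS]
  clear hS
  obtain ⟨m, hm⟩ : ∃ m, m = ⌈ρ / ε⌉₊ + 2 := ⟨_, rfl⟩
  obtain ⟨n, hn⟩ : ∃ n, n = ⌊d / (4 * ε)⌋₊ := ⟨_, rfl⟩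
  rw [← hm, ← hn]
  have hρ : 0 < ρ := hε.trans_le hερ
  have hd : 0 < d := by linarith
  have hm1 : ρ + 2 * ε ≤ ε * m := by
    have : ρ / ε + 2 ≤ m := by rw [hm]; push_cast; linarith [Nat.le_ceil (ρ / ε)]
    calc ρ + 2 * ε = ε * (ρ / ε + 2) := by field_simp
      _ ≤ _ := mul_le_mul_of_nonneg_left this hε.le
  have hm2 : ε * m ≤ 4 * ρ := by
    have : (m:ℝ) ≤ ρ / ε + 3 := by
      rw [hm]; push_cast; linarith [(Nat.ceil_lt_add_one (show 0 ≤ ρ / ε by positivity)).le]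
    calc ε * m ≤ ε * (ρ / ε + 3) := mul_le_mul_of_nonneg_left this hε.le
      _ = ρ + 3 * ε := by field_simp
      _ ≤ 4 * ρ := by linarith
  have hn2 : d / 4 - ε ≤ ε * n := by
    have : d / (4 * ε) - 1 ≤ n := by rw [hn]; linarith [Nat.lt_floor_add_one (d / (4 * ε))]
    calc d / 4 - ε = ε * (d / (4 * ε) - 1) := by field_simp
      _ ≤ _ := mul_le_mul_of_nonneg_left this hε.le
  have hmn : m ≤ n := by
    have : ε * (m:ℝ) ≤ ε * n := by linarith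
    exact_mod_cast le_of_mul_le_mul_left this hε
  have hn1 : 1 ≤ n := by
    have : 2 ≤ m := by omega
    omega
  have hx2 : ((nv ε z).2) ≤ (m:ℤ) + 1 := by
    have h1 := (abs_le.mp (nv_abs hε z).2).2
    have h2 : ε * ((nv ε z).2 : ℝ) ≤ ε * ((m:ℝ) + 1) := by linarith
    have h3 := le_of_mul_le_mul_left h2 hε
    exact_mod_cast h3
  have hx0 := nv_im_nonneg hε hz
  refine (h ((n:ℤ), (nv ε z).2) m n ⟨by simp, hx0⟩ hn1 hmn le_rfl (Or.inl ?_)).trans ?_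
  · simp only; omega
  rw [mul_assoc]
  apply mul_le_mul_of_nonneg_left _ hC.le
  rw [← Real.mul_rpow (by norm_num) (by positivity)]
  apply Real.rpow_le_rpow (by positivity) _ (by norm_num)
  have hn0 : 0 < ε * (n:ℝ) := by linarith
  have hn0' : (0:ℝ) < n := (mul_pos_iff_of_pos_left hε).mp hn0
  have e : ((m:ℝ) + 1) / n = (ε * (m + 1)) / (ε * n) := by field_simp
  rw [e, div_le_iff₀ hn0]
  calc ε * ((m:ℝ) + 1) ≤ 5 * ρ := by linarith
    _ = 40 * (ρ / d) * (d / 8) := by field_simp; norm_num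
    _ ≤ 40 * (ρ / d) * (ε * n) := by
        apply mul_le_mul_of_nonneg_left _ (by positivity)
        linarith

theorem pu : S_AR → S_PU := by
  rintro ⟨c, C, hc, hC, h⟩
  have h' : ∀ (x : Vtx) (m n : ℕ), TH976.InV x → 1 ≤ n → m ≤ n →
      (n : ℤ) ≤ x.1 → (x.2 ≤ 64 * ((m : ℤ) + 1) ∨ (n : ℤ) ≤ 1000 * ((m : ℤ) + 1)) →
      Pr (fun _ => (1/2 : ℝ)) (TH976.qb x n) (TH976.Cx x m n) ≤
        C * (((m : ℝ) + 1) / n) ^ ((1 : ℝ) / 3) :=
    fun x m n a1 a2 a3 a4 a5 => (h x m n a1 a2 a3 a4 a5).2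
  obtain ⟨B, hB1, hB2⟩ : ∃ B : ℝ, 1 ≤ B ∧ C * (40:ℝ) ^ ((1:ℝ)/3) ≤ B :=
    ⟨max 1 (C * (40:ℝ) ^ ((1:ℝ)/3)), le_max_left _ _, le_max_right _ _⟩
  obtain ⟨A, hAB, hA64⟩ : ∃ A : ℝ, B ≤ A ∧ (64:ℝ) ^ ((1:ℝ)/3) ≤ A :=
    ⟨max B ((64:ℝ) ^ ((1:ℝ)/3)), le_max_left _ _, le_max_right _ _⟩
  have hA0 : 0 < A := lt_of_lt_of_le zero_lt_one (hB1.trans hAB)
  refine ⟨A * A, by positivity, ?_⟩
  intro ε K L z w ρ σ hε hGK hGL hd
  have hSK := hGK.size
  have hSL := hGL.size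
  have hρ' := hGK.mesh
  have hσ' := hGL.mesh
  have hzi : 0 ≤ z.im := hGK.sub z hSK.mem
  have hwi : 0 ≤ w.im := hGL.sub w hSL.mem
  have hbK := hGK.base
  have hbL := hGL.base
  obtain ⟨d, hdd⟩ : ∃ d, d = dist z w := ⟨_, rfl⟩
  rw [← hdd] at hSK hSL hd hρ' hσ' hbK hbL ⊢
  have hd0 : 0 < d := hSK.pos.trans_le hSK.le
  have hρ := hSK.pos
  have hσ := hSL.pos
  have him : ∀ (K' : Set ℂ) (z' : ℂ) (r : ℝ), 0 < r → 64 * r < d →
      (r = d ∨ ∃ a : ℝ, dist z' (a : ℂ) ≤ r ∧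
        ∀ s : ℝ, 0 ≤ s → s ≤ r / 4 → ∃ x ∈ K', dist x (a : ℂ) = s) → z'.im ≤ r := by
    intro K' z' r hr hrd hb'
    rcases hb' with hb' | ⟨a, ha, -⟩
    · rw [hb'] at hrd; linarith
    · have := (abs_im_le z' (a : ℂ)).trans ha
      rw [Complex.ofReal_im, sub_zero] at this
      exact (le_abs_self _).trans this
  obtain ⟨n, hn⟩ : ∃ n, n = ⌊d / (4 * ε)⌋₊ := ⟨_, rfl⟩
  have hle1 : crossH ε K L ≤ 1 := measureReal_le_one
  rw [Real.mul_rpow (by positivity) (by positivity)]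
  -- the factor of a large set
  have big : ∀ r : ℝ, 0 < r → d ≤ 64 * r → 1 ≤ A * (r / d) ^ ((1:ℝ)/3) := by
    intro r hr h64
    have h1 : (1 / 64 : ℝ) ≤ r / d := by rw [div_le_div_iff₀ (by norm_num) hd0]; linarith
    have h2 : (1 / 64 : ℝ) ^ ((1:ℝ)/3) ≤ (r / d) ^ ((1:ℝ)/3) :=
      Real.rpow_le_rpow (by norm_num) h1 (by norm_num)
    have h3 : (64:ℝ) ^ ((1:ℝ)/3) * (1 / 64 : ℝ) ^ ((1:ℝ)/3) = 1 := by
      rw [← Real.mul_rpow (by norm_num) (by norm_num)]; norm_num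
    calc (1:ℝ) = (64:ℝ) ^ ((1:ℝ)/3) * (1 / 64 : ℝ) ^ ((1:ℝ)/3) := h3.symm
      _ ≤ A * (r / d) ^ ((1:ℝ)/3) := mul_le_mul hA64 h2 (by positivity) (by positivity)
  have small : ∀ (r : ℝ) (z' : ℂ) (S : Finset Edg), 0 < r → ε ≤ r → 64 * r < d → 0 ≤ z'.im →
      z'.im ≤ r → hb (nv ε z') n ⊆ S →
      Pr (fun _ => (1/2:ℝ)) S (EV (nv ε z') (⌈r / ε⌉₊ + 2) n) ≤ A * (r / d) ^ ((1:ℝ)/3) := by
    intro r z' S hr h1 h2 h3 h4 h5
    rw [hn] at h5 ⊢
    refine (EV_up hC h' hε h1 h2 h3 h4 h5).trans ?_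
    apply mul_le_mul_of_nonneg_right _ (by positivity)
    exact hB2.trans hAB
  have eps : ∀ r : ℝ, (ε ≤ r ∨ r = d) → 64 * r < d → ε ≤ r := by
    intro r h1 h2
    rcases h1 with h1 | h1
    · exact h1
    · rw [h1] at h2; linarith
  have ball : ∀ (K' : Set ℂ) (z' : ℂ) (r : ℝ), Size K' z' d r → 64 * r < d →
      K' ⊆ Metric.closedBall z' r := by
    intro K' z' r h1 h2
    rcases h1.bd with h3 | h3
    · have := h1.pos; rw [h3] at h2; linarith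
    · exact h3
  have hpos : ∀ (S : Finset Edg) (Q : Finset Edg → Prop), 0 ≤ Pr (fun _ => (1/2:ℝ)) S Q :=
    fun S Q => Pr_nonneg okhalf _ _
  have ehl : (fun _ : Edg => (1/2:ℝ)) = fun _ => (Pool.Agent.Y996.RD.hlf : ℝ) := rfl
  have hGG : ∀ ω, ∀ e ∈ opn ω ∩ {e : Edg | 0 ≤ e.2.1}, 0 ≤ e.2.1 := fun ω e he => he.2
  have hFF : ∀ (ω : sqLattice.edgeSet → Bool) (S : Finset Edg),
      opn ω ∩ {e : Edg | 0 ≤ e.2.1} ∩ ↑S ⊆ (↑(FF S ω) : Set Edg) := by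
    intro ω S
    rw [FF_coe]
    exact fun e he => ⟨he.1.1, he.2⟩
  rcases le_or_gt d (64 * ρ) with h1 | h1
  · rcases le_or_gt d (64 * σ) with h2 | h2
    · -- both large
      have i1 := big ρ hρ h1
      have i2 := big σ hσ h2
      calc crossH ε K L ≤ 1 * 1 := by linarith
        _ ≤ (A * (ρ / d) ^ ((1:ℝ)/3)) * (A * (σ / d) ^ ((1:ℝ)/3)) :=
            mul_le_mul i1 i2 zero_le_one (by positivity)
        _ = _ := by ring
    · -- `L` small
      have h3 := eps σ hσ' h2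
      have i1 := big ρ hρ h1
      have i2 := small σ w (hb (nv ε w) n) hσ h3 h2 hwi (him L w σ hσ h2 hbL)
        (Finset.Subset.refl _)
      have i3 : crossH ε K L ≤
          Pr (fun _ => (1/2:ℝ)) (hb (nv ε w) n) (EV (nv ε w) (⌈σ / ε⌉₊ + 2) n) := by
        rw [ehl, ← law_event Pool.Agent.Y996.RD.hlf]
        unfold crossH
        refine measureReal_mono ?_
        rintro ω ⟨u, hu, v, hv, hr⟩
        rw [hn]
        exact upH_event hε (ball L w σ hSL h2) h3 h2 (L := K)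
          (fun y hy => by rw [dist_comm]; exact hd y hy w hSL.mem)
          (S := hb (nv ε w) ⌊d / (4 * ε)⌋₊) (Finset.Subset.refl _) (hGG ω) hv hu hr.symm
          (hFF ω _)
      have hb' := hpos (hb (nv ε w) n) (EV (nv ε w) (⌈σ / ε⌉₊ + 2) n)
      calc crossH ε K L ≤ 1 * Pr (fun _ => (1/2:ℝ)) (hb (nv ε w) n)
              (EV (nv ε w) (⌈σ / ε⌉₊ + 2) n) := by linarith
        _ ≤ (A * (ρ / d) ^ ((1:ℝ)/3)) * (A * (σ / d) ^ ((1:ℝ)/3)) :=
            mul_le_mul i1 i2 hb' (by positivity)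
        _ = _ := by ring
  · have h3 := eps ρ hρ' h1
    have hz2 := him K z ρ hρ h1 hbK
    rcases le_or_gt d (64 * σ) with h2 | h2
    · -- `K` small
      have i2 := big σ hσ h2
      have i1 := small ρ z (hb (nv ε z) n) hρ h3 h1 hzi hz2 (Finset.Subset.refl _)
      have i3 : crossH ε K L ≤
          Pr (fun _ => (1/2:ℝ)) (hb (nv ε z) n) (EV (nv ε z) (⌈ρ / ε⌉₊ + 2) n) := by
        rw [ehl, ← law_event Pool.Agent.Y996.RD.hlf]
        unfold crossH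
        refine measureReal_mono ?_
        rintro ω ⟨u, hu, v, hv, hr⟩
        rw [hn]
        exact upH_event hε (ball K z ρ hSK h1) h3 h1 (L := L)
          (fun y hy => hd z hSK.mem y hy)
          (S := hb (nv ε z) ⌊d / (4 * ε)⌋₊) (Finset.Subset.refl _) (hGG ω) hu hv hr
          (hFF ω _)
      have hb' := hpos (hb (nv ε z) n) (EV (nv ε z) (⌈ρ / ε⌉₊ + 2) n)
      calc crossH ε K L ≤ Pr (fun _ => (1/2:ℝ)) (hb (nv ε z) n)
              (EV (nv ε z) (⌈ρ / ε⌉₊ + 2) n) * 1 := by linarith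
        _ ≤ (A * (ρ / d) ^ ((1:ℝ)/3)) * (A * (σ / d) ^ ((1:ℝ)/3)) :=
            mul_le_mul i1 i2 zero_le_one (by positivity)
        _ = _ := by ring
    · -- both small
      have h4 := eps σ hσ' h2
      have hw2 := him L w σ hσ h2 hbL
      obtain ⟨S, hS⟩ : ∃ S : Finset Edg, S = hb (nv ε z) n ∪ hb (nv ε w) n := ⟨_, rfl⟩
      have s1 : hb (nv ε z) n ⊆ S := by rw [hS]; exact Finset.subset_union_left
      have s2 : hb (nv ε w) n ⊆ S := by rw [hS]; exact Finset.subset_union_right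
      have i1 := small ρ z S hρ h3 h1 hzi hz2 s1
      have i2 := small σ w S hσ h4 h2 hwi hw2 s2
      have hn1 : ε * n ≤ d / 4 := by
        have : (n:ℝ) ≤ d / (4 * ε) := by rw [hn]; exact Nat.floor_le (by positivity)
        calc ε * n ≤ ε * (d / (4 * ε)) := mul_le_mul_of_nonneg_left this hε.le
          _ = _ := by field_simp
      have hdis : Disjoint (hb (nv ε z) n) (hb (nv ε w) n) := by
        refine Disjoint.mono (hb_sub_bx _ _) (hb_sub_bx _ _) ?_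
        apply bx_disjoint
        refine lat_far hε hd0.le (by rw [hdd] : d ≤ dist z w) (nv_abs hε z) (nv_abs hε w) ?_
        push_cast
        nlinarith
      have i3 : crossH ε K L ≤ Pr (fun _ => (1/2:ℝ)) S (fun F =>
          EV (nv ε z) (⌈ρ / ε⌉₊ + 2) n F ∧ EV (nv ε w) (⌈σ / ε⌉₊ + 2) n F) := by
        rw [ehl, ← law_event Pool.Agent.Y996.RD.hlf]
        unfold crossH
        refine measureReal_mono ?_
        rintro ω ⟨u, hu, v, hv, hr⟩
        constructor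
        · rw [hn]
          exact upH_event hε (ball K z ρ hSK h1) h3 h1 (L := L)
            (fun y hy => hd z hSK.mem y hy) (S := S) (by rw [← hn]; exact s1) (hGG ω) hu hv hr
            (hFF ω _)
        · rw [hn]
          exact upH_event hε (ball L w σ hSL h2) h4 h2 (L := K)
            (fun y hy => by rw [dist_comm]; exact hd y hy w hSL.mem) (S := S)
            (by rw [← hn]; exact s2) (hGG ω) hv hu hr.symm (hFF ω _)
      have i4 := Pr_indep (p := fun _ => (1/2:ℝ)) (U := S) (S := hb (nv ε z) n)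
        (T := hb (nv ε w) n) s1 s2 hdis
        (A := fun F => EV (nv ε z) (⌈ρ / ε⌉₊ + 2) n F)
        (B := fun F => EV (nv ε w) (⌈σ / ε⌉₊ + 2) n F)
        (fun F _ => EV_local (nv ε z) (⌈ρ / ε⌉₊ + 2) n F)
        (fun F _ => EV_local (nv ε w) (⌈σ / ε⌉₊ + 2) n F)
      rw [i4] at i3
      refine i3.trans ((mul_le_mul i1 i2 (hpos _ _) ((hpos _ _).trans i1)).trans (le_of_eq ?_))
      ring

end Pool.Agent.Y448.QH
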